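import Pool.Agent.TH387.EI.Main

/-!
# Approximately isomorphic C*-algebras have close representations

If two C*-algebras `A`, `B` are `ε`-isomorphic (by an arbitrary, in general nonlinear, map) then they
have faithful representations on a common Hilbert space such that the Kadison-Kastler distance of
the images is at most `10 ^ 9 * ε ^ (1 / 32)`.

The proof.  Let `φ : A → B` be an `ε`-isomorphism and `π` an irreducible representation of `B` on a
Hilbert space `K`, with a unit vector `κ`.  The pure state `f` given by `κ` is excised by elements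
`b` of `B`, that is, `b x b` is close to `f(x) b²` in norm; an element `a` of `A` with `φ(a)` close
to `b` then satisfies `a x a ≈ f(φ(x)) a²`, and a norming state of `a` is close to `f ∘ φ` on finite
subsets of the unit ball.  In the limit one gets a positive functional `g` of `A` which is uniformly
close to `f ∘ φ` on the unit ball.  In the von Neumann algebra `M` generated by `A` in the GNS
representation of `g` there is a positive contraction `x` that acts almost as the projection onto
the cyclic vector `ξ` on the vectors `a ξ`, `‖a‖ ≤ 1`.  It follows that `‖e ξ‖²` is close to `0` or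
`1` for every projection `e` of `M` below a suitable spectral projection of `x`, so Zorn's lemma
gives a minimal projection of `M` near `ξ`, i.e. a pure state of `A` near `f ∘ φ`.  Its GNS space `H`
is related to `K` by the map `V : a ξ ↦ φ(a) κ`, `‖a‖ ≤ 1`, of the unit ball of `H`, which almost
preserves inner products, almost intertwines all bounded operators of `H` with operators of `K`
and is almost surjective.  Such a map is close to a unitary operator: on finite dimensional subspaces
one shows by induction on the dimension, averaging over almost invariant finite sets of unitaries,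
that `V` is close to a linear map with a constant that does not depend on the dimension.  Hence the
irreducible representation of `A` can be moved to `K` in such a way that it is uniformly close to
`π ∘ φ` on the unit ball, and the direct sum over all `π` gives the theorem.
-/

set_option autoImplicit false

open scoped ComplexOrder InnerProductSpace Topology
open Filter

noncomputable section

namespace Pool.Agent.Results.MP_25dcdb_an.CloseRepresentations

universe u

/-- `f x ≤ δ` for some `δ < ε` and all `x` with `P x`: this says `sup {f x : P x} < ε` (in our uses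
the set is not empty). -/
def SupLt {X : Type u} (P : X → Prop) (f : X → ℝ) (ε : ℝ) : Prop :=
  ∃ δ < ε, ∀ x, P x → f x ≤ δ

section

variable {A B : Type u} [NonUnitalCStarAlgebra A] [NonUnitalCStarAlgebra B] (φ : A → B)

/-- The norm of `φ (l x + m y) - l φ x - m φ y`. -/
def linDefect (l m : ℂ) (x y : A) : ℝ := ‖φ (l • x + m • y) - l • φ x - m • φ y‖

/-- `‖φ (l x + m y) - l φ x - m φ y‖ ≤ δ` for all `x, y` in the unit ball and all complex `l, m` of
modulus at most one, with some `δ < ε`. -/
def AlmostLinear (ε : ℝ) : Prop :=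
  ∃ δ < ε, ∀ (l m : ℂ) (x y : A), ‖l‖ ≤ 1 → ‖m‖ ≤ 1 → ‖x‖ ≤ 1 → ‖y‖ ≤ 1 →
    linDefect φ l m x y ≤ δ

/-- `sup ‖φ (x*) - (φ x)*‖ < ε`, over the unit ball. -/
def AlmostStar (ε : ℝ) : Prop :=
  SupLt (fun x : A => ‖x‖ ≤ 1) (fun x => ‖φ (star x) - star (φ x)‖) ε

/-- `sup ‖φ (x y) - φ x φ y‖ < ε`, over the unit ball. -/
def AlmostMul (ε : ℝ) : Prop :=
  SupLt (fun p : A × A => ‖p.1‖ ≤ 1 ∧ ‖p.2‖ ≤ 1) (fun p => ‖φ (p.1 * p.2) - φ p.1 * φ p.2‖) ε

/-- `sup |‖x‖ - ‖φ x‖| < ε`, over the unit ball. -/
def AlmostIsom (ε : ℝ) : Prop :=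
  SupLt (fun x : A => ‖x‖ ≤ 1) (fun x => |‖x‖ - ‖φ x‖|) ε

/-- `φ : A → B` is an `ε`-isomorphism: `‖φ‖ ≤ 1`, each of the four suprema is smaller than `ε`,
and every element of the unit ball of `B` is at distance less than `ε` from `φ x` for some `x` in
the unit ball of `A`.  The map `φ` is not assumed to be linear. -/
structure IsEpsIso (ε : ℝ) : Prop where
  norm_le : ∀ x, ‖x‖ ≤ 1 → ‖φ x‖ ≤ 1
  linear : AlmostLinear φ ε
  adjoint : AlmostStar φ ε
  mul : AlmostMul φ ε
  isometric : AlmostIsom φ ε
  onto : ∀ b : B, ‖b‖ ≤ 1 → ∃ x : A, ‖x‖ ≤ 1 ∧ ‖b - φ x‖ < ε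

end

/-- `sup {dist(a, T) : a ∈ S, ‖a‖ ≤ 1}`, the distance being that of the operator norm. -/
def excess {H : Type u} [NormedAddCommGroup H] [InnerProductSpace ℂ H]
    (S T : Set (H →L[ℂ] H)) : ℝ :=
  sSup ((fun a => Metric.infDist a T) '' {a ∈ S | ‖a‖ ≤ 1})

/-- The Kadison-Kastler distance of two C*-subalgebras `S`, `T` of `B(H)`: the maximum of
`sup {dist(a, T) : a ∈ S, ‖a‖ ≤ 1}` and `sup {dist(b, S) : b ∈ T, ‖b‖ ≤ 1}`. -/
def dKK {H : Type u} [NormedAddCommGroup H] [InnerProductSpace ℂ H]
    (S T : Set (H →L[ℂ] H)) : ℝ :=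
  max (excess S T) (excess T S)

/-- The representations (*-homomorphisms, perhaps degenerate) of `A` on `H`. -/
abbrev Rep (A : Type u) [NonUnitalCStarAlgebra A] (H : Type u) [NormedAddCommGroup H]
    [InnerProductSpace ℂ H] [CompleteSpace H] : Type u := A →⋆ₙₐ[ℂ] (H →L[ℂ] H)

/-- The image of a representation. -/
def Rep.image {A : Type u} [NonUnitalCStarAlgebra A] {H : Type u} [NormedAddCommGroup H]
    [InnerProductSpace ℂ H] [CompleteSpace H] (ρ : Rep A H) : Set (H →L[ℂ] H) := Set.range ρ

/-- `ρ` is injective. -/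
def Rep.Faithful {A : Type u} [NonUnitalCStarAlgebra A] {H : Type u} [NormedAddCommGroup H]
    [InnerProductSpace ℂ H] [CompleteSpace H] (ρ : Rep A H) : Prop := Function.Injective ρ

/-- `A` and `B` have faithful representations on a common Hilbert space with images at
Kadison-Kastler distance at most `r`. -/
def CloseRep (A B : Type u) [NonUnitalCStarAlgebra A] [NonUnitalCStarAlgebra B] (r : ℝ) : Prop :=
  ∃ (H : Type u) (_ : NormedAddCommGroup H) (_ : InnerProductSpace ℂ H) (_ : CompleteSpace H)
    (ρA : Rep A H) (ρB : Rep B H),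
    ρA.Faithful ∧ ρB.Faithful ∧ dKK ρA.image ρB.image ≤ r

/-- For every `ε > 0`, any two `ε`-isomorphic C*-algebras (unital or not, of any size) have faithful
representations on a common Hilbert space with images at Kadison-Kastler distance at most `η ε`. -/
def Converse (η : ℝ → ℝ) : Prop :=
  ∀ ε : ℝ, 0 < ε → ∀ (A B : Type u) [NonUnitalCStarAlgebra A] [NonUnitalCStarAlgebra B]
    (φ : A → B), IsEpsIso φ ε → CloseRep A B (η ε)

theorem explicit : Converse.{u} (fun ε => 10 ^ 9 * ε ^ (1 / 32 : ℝ)) := by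
  intro ε hε A B _ _ φ h
  have ht : 0 < ε ^ (1 / 32 : ℝ) := Real.rpow_pos_of_pos hε _
  have h32 : (ε ^ (1 / 32 : ℝ)) ^ 32 = ε := by
    rw [← Real.rpow_natCast, ← Real.rpow_mul hε.le]
    norm_num
  suffices hm : Pool.Agent.TH387.EI.AI φ ((ε ^ (1 / 32 : ℝ)) ^ 32) by
    obtain ⟨H, _, _, _, ρA, ρB, h1, h2, h3⟩ := Pool.Agent.TH387.EI.main φ _ ht hm
    refine ⟨H, inferInstance, inferInstance, inferInstance, ρA, ρB, h1, h2, ?_⟩
    have hb : ∀ S : Set (H →L[ℂ] H), {a ∈ S | ‖a‖ ≤ 1} = S ∩ Metric.closedBall 0 1 := by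
      intro S
      ext a
      simp
    show max (excess _ _) (excess _ _) ≤ _
    unfold excess
    rw [hb, hb]
    exact h3
  rw [h32]
  refine ⟨h.norm_le, ?_, ?_, ?_, ?_, ?_⟩
  · obtain ⟨δ, h1, h2⟩ := h.linear
    exact fun x y hx hy l m hl hm => (h2 l m x y hl hm hx hy).trans h1.le
  · obtain ⟨δ, h1, h2⟩ := h.adjoint
    exact fun x hx => (h2 x hx).trans h1.le
  · obtain ⟨δ, h1, h2⟩ := h.mul
    exact fun x y hx hy => (h2 (x, y) ⟨hx, hy⟩).trans h1.le
  · obtain ⟨δ, h1, h2⟩ := h.isometric
    exact fun x hx => (h2 x hx).trans h1.le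
  · intro b hb
    obtain ⟨x, h1, h2⟩ := h.onto b hb
    exact ⟨x, h1, h2.le⟩

/-- **Main result.** There are `α > 0` and a function `η` with `η(ε) = o(ε ^ α)` as `ε → 0` such that
any two `ε`-isomorphic C*-algebras (unital or not, of any size) have faithful representations on a
common Hilbert space with images at Kadison-Kastler distance at most `η(ε)`. One can take
`η(ε) = 10 ^ 9 * ε ^ (1 / 32)` and for `α` any positive number smaller than `1 / 32`. -/
theorem result :
    Converse.{u} (fun ε => 10 ^ 9 * ε ^ (1 / 32 : ℝ)) ∧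
    ∀ α : ℝ, 0 < α → α < 1 / 32 → ∃ η : ℝ → ℝ,
      Tendsto (fun ε => η ε / ε ^ α) (𝓝[>] 0) (𝓝 0) ∧ Converse.{u} η := by
  refine ⟨explicit, fun α hα hα1 => ⟨fun ε => 10 ^ 9 * ε ^ (1 / 32 : ℝ), ?_, explicit⟩⟩
  have h1 : Tendsto (fun ε : ℝ => 10 ^ 9 * ε ^ (1 / 32 - α)) (𝓝[>] 0) (𝓝 (10 ^ 9 * 0)) := by
    refine Tendsto.const_mul _ ?_
    have h2 : Tendsto (fun ε : ℝ => ε ^ (1 / 32 - α)) (𝓝 0) (𝓝 (0 ^ (1 / 32 - α))) :=
      (Real.continuous_rpow_const (by linarith)).tendsto 0
    rw [Real.zero_rpow (by linarith)] at h2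
    exact h2.mono_left nhdsWithin_le_nhds
  rw [mul_zero] at h1
  refine h1.congr' ?_
  filter_upwards [self_mem_nhdsWithin] with ε hε
  have hε' : (0 : ℝ) < ε := hε
  rw [Real.rpow_sub hε', mul_div_assoc]

end Pool.Agent.Results.MP_25dcdb_an.CloseRepresentations
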